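import Pool.Agent.Helper43.RK.StT

/-! Project RK (MP_b3ce06_al), module DEX (helper10): a generator of absolute trace one. -/

set_option autoImplicit false

namespace Pool.Agent.Helper10.RK

open Pool.Agent.Helper43.RK

theorem split2 {k : Type} [AddCommMonoid k] (f : ℕ → k) (m : ℕ) :
    ∑ i ∈ Finset.range m, (f (2 * i) + f (2 * i + 1)) = ∑ j ∈ Finset.range (2 * m), f j := by
  induction m with
  | zero => simp
  | succ m ih =>
    rw [Finset.sum_range_succ, ih, show 2 * (m + 1) = 2 * m + 1 + 1 by ring, Finset.sum_range_succ,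
      Finset.sum_range_succ, add_assoc]

theorem hDEX : StDEX := by
  intro n hn
  have hn0 : n ≠ 0 := by rintro rfl; simp at hn
  have hp : Fact (Nat.Prime 2) := ⟨Nat.prime_two⟩
  have hcard : Nat.card (GaloisField 2 n) = 2 ^ n := GaloisField.card 2 n hn0
  have : Fintype (GaloisField 2 n) := Fintype.ofFinite _
  obtain ⟨c, hc⟩ := IsCyclic.exists_monoid_generator (α := (GaloisField 2 n)ˣ)
  have hx : ∀ x : GaloisField 2 n, x ^ (2 ^ n) = x := by
    intro x
    rw [← hcard, Nat.card_eq_fintype_card]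
    exact FiniteField.pow_card x
  have two : (1 : GaloisField 2 n) + 1 = 0 := CharTwo.add_self_eq_zero 1
  have tw : ∀ x : GaloisField 2 n, x + x = 0 := fun x => CharTwo.add_self_eq_zero x
  have hadd : ∀ (i : ℕ) (x y : GaloisField 2 n), (x + y) ^ (2 ^ i) = x ^ (2 ^ i) + y ^ (2 ^ i) := by
    intro i x y
    exact add_pow_char_pow x y 2 i
  obtain ⟨γ, hγ⟩ : ∃ γ : GaloisField 2 n, γ = (c : GaloisField 2 n) := ⟨_, rfl⟩
  have hsq : ∀ i : ℕ, (γ ^ 2) ^ (2 ^ i) = γ ^ (2 ^ (i + 1)) := by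
    intro i
    rw [← pow_mul, pow_succ, mul_comm]
  obtain ⟨T, hT⟩ : ∃ T, T = ∑ i ∈ Finset.range n, γ ^ (2 ^ i) := ⟨_, rfl⟩
  have hT1 : ∑ i ∈ Finset.range n, γ ^ (2 ^ (i + 1)) = T := by
    have h1 := Finset.sum_range_succ (fun i => γ ^ (2 ^ i)) n
    have h2 := Finset.sum_range_succ' (fun i => γ ^ (2 ^ i)) n
    rw [h1, ← hT, hx, pow_zero, pow_one] at h2
    exact (add_right_cancel h2).symm
  refine ⟨1 + γ + γ ^ 2, ?_, ?_⟩
  · have h1 : ∀ i ∈ Finset.range n, (1 + γ + γ ^ 2) ^ (2 ^ i) = 1 + γ ^ (2 ^ i) + γ ^ (2 ^ (i + 1)) := by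
      intro i _
      rw [hadd, hadd, one_pow, hsq]
    rw [Finset.sum_congr rfl h1, Finset.sum_add_distrib, Finset.sum_add_distrib, hT1, ← hT]
    rw [Finset.sum_const, Finset.card_range, nsmul_eq_mul, mul_one, add_assoc, tw, add_zero]
    obtain ⟨m, hm⟩ : ∃ m, n = 2 * m + 1 := ⟨n / 2, by omega⟩
    rw [hm]
    push_cast
    have h2 : (2 : GaloisField 2 n) = 0 := by
      have := two
      rw [one_add_one_eq_two] at this
      exact this
    have h3 : (2 : GaloisField 2 (2 * m + 1)) = 0 := CharTwo.two_eq_zero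
    rw [h3]; ring
  · intro S hS
    obtain ⟨m, hm⟩ : ∃ m, n = 2 * m + 1 := ⟨n / 2, by omega⟩
    have he : γ + γ ^ 2 ∈ S := by
      have h1 : γ + γ ^ 2 = (1 + γ + γ ^ 2) + 1 := by
        linear_combination -two
      rw [h1]
      exact S.add_mem hS S.one_mem
    have hT2 : T ^ 2 = T := by
      have h1 : T ^ 2 = ∑ i ∈ Finset.range n, γ ^ (2 ^ (i + 1)) := by
        rw [hT, CharTwo.sum_sq]
        refine Finset.sum_congr rfl fun i _ => ?_
        rw [← pow_mul, pow_succ]
      rw [h1, hT1]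
    have hT3 : T ∈ S := by
      have h1 : T * (T - 1) = 0 := by linear_combination hT2
      rcases mul_eq_zero.1 h1 with h | h
      · rw [h]; exact S.zero_mem
      · rw [sub_eq_zero.1 h]; exact S.one_mem
    have hsum : ∑ i ∈ Finset.range (m + 1), (γ + γ ^ 2) ^ (2 ^ (2 * i)) = T + γ := by
      have h1 : ∀ i ∈ Finset.range (m + 1), (γ + γ ^ 2) ^ (2 ^ (2 * i)) =
          (fun j => γ ^ (2 ^ j)) (2 * i) + (fun j => γ ^ (2 ^ j)) (2 * i + 1) := by
        intro i _
        rw [hadd, hsq]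
      rw [Finset.sum_congr rfl h1]
      refine (split2 (fun j => γ ^ (2 ^ j)) (m + 1)).trans ?_
      rw [show 2 * (m + 1) = n + 1 by omega, Finset.sum_range_succ, ← hT, hx]
    have hγS : γ ∈ S := by
      have h1 : γ = T + ∑ i ∈ Finset.range (m + 1), (γ + γ ^ 2) ^ (2 ^ (2 * i)) := by
        rw [hsum, ← add_assoc, tw, zero_add]
      rw [h1]
      exact S.add_mem hT3 (S.sum_mem fun i _ => S.pow_mem he _)
    rw [eq_top_iff]
    intro x _
    by_cases h0 : x = 0
    · rw [h0]; exact S.zero_mem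
    · obtain ⟨i, hi⟩ := hc (Units.mk0 x h0)
      have h1 : γ ^ i = x := by
        have h2 := congrArg (Units.val) hi
        simp only [Units.val_mk0] at h2
        rw [hγ, ← h2]
        simp
      rw [← h1]
      exact S.pow_mem hγS i

end Pool.Agent.Helper10.RK
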