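import Pool.Agent.Helper43.RK.StI

/-! Project RK (MP_b3ce06_al), module ITT (helper10): assembly. -/

set_option autoImplicit false

namespace Pool.Agent.Helper10.RK

open Pool.Agent.Helper43.RK

theorem cpow {G : Type} [Group G] (a b : G) (i : ℕ) : a⁻¹ * b ^ i * a = (a⁻¹ * b * a) ^ i := by
  have := conj_pow (a := a⁻¹) (b := b) (i := i)
  rw [inv_inv] at this
  exact this.symm

theorem czpow {G : Type} [Group G] (a b : G) (i : ℤ) : a⁻¹ * b ^ i * a = (a⁻¹ * b * a) ^ i := by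
  have := conj_zpow (a := a⁻¹) (b := b) (i := i)
  rw [inv_inv] at this
  exact this.symm

/-- relation R3 conjugated by `f = g^4` -/
theorem relC {G : Type} [Group G] (g a t Z : G) (β : ℕ) (l : ℤ)
    (r2 : (g ^ 4)⁻¹ * t * g ^ 4 = t ^ 2)
    (r3 : (g ^ β)⁻¹ * t * g ^ β = t ^ (-l) * a * t ^ l * t⁻¹)
    (haZ : (g ^ 4)⁻¹ * a * g ^ 4 = a * Z) :
    t ^ (-l) * (a * Z) * t ^ l = a * (t⁻¹ * a * t) := by
  have hc : g ^ β * g ^ 4 = g ^ 4 * g ^ β := by rw [← pow_add, ← pow_add, add_comm]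
  have hc' : g ^ 4 * (g ^ β)⁻¹ = (g ^ β)⁻¹ * g ^ 4 := by
    rw [eq_inv_mul_iff_mul_eq, ← mul_assoc, hc, mul_assoc, mul_inv_cancel, mul_one]
  have hL : (g ^ 4)⁻¹ * ((g ^ β)⁻¹ * t * g ^ β) * g ^ 4 = (t ^ (-l) * a * t ^ l * t⁻¹) ^ 2 := by
    rw [← r3, ← cpow, ← r2]
    generalize g ^ β = x at hc hc'
    generalize g ^ 4 = y at hc hc'
    calc y⁻¹ * (x⁻¹ * t * x) * y = (y⁻¹ * x⁻¹) * t * (x * y) := by group
      _ = (y⁻¹ * x⁻¹) * t * (y * x) := by rw [hc]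
      _ = (x * y)⁻¹ * t * (y * x) := by group
      _ = (y * x)⁻¹ * t * (y * x) := by rw [hc]
      _ = x⁻¹ * (y⁻¹ * t * y) * x := by group
  have ht : ∀ m : ℤ, (g ^ 4)⁻¹ * t ^ m * g ^ 4 = t ^ (2 * m) := by
    intro m
    rw [czpow, r2, ← zpow_natCast, ← zpow_mul]
    norm_num
  have hR : (g ^ 4)⁻¹ * (t ^ (-l) * a * t ^ l * t⁻¹) * g ^ 4 =
      t ^ (2 * (-l)) * (a * Z) * t ^ (2 * l) * t ^ (2 * (-1 : ℤ)) := by
    rw [← haZ, ← ht, ← ht, ← ht]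
    generalize g ^ 4 = y
    group
  rw [r3, hR] at hL
  have h1 : t ^ (-l) * (a * Z) * t ^ l =
      t ^ l * (t ^ (2 * (-l)) * (a * Z) * t ^ (2 * l) * t ^ (2 * (-1 : ℤ))) * (t ^ (2 : ℤ) * t ^ (-l)) := by
    group
  rw [h1, hL, pow_two]
  group

theorem hITT : StITT := by
  intro hIPX hIRU hISC hITH hIYW hIT3 hICO hIEN hINU n k β hPar G _ g a t hB
  obtain ⟨e, he3, hke⟩ := hPar.ke
  have hk8 := hPar.k8
  have hk1 : 1 ≤ k := by omega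
  have haf : a⁻¹ * g ^ 4 * a = (g ^ 4) ^ (k : ℤ) := by
    rw [cpow, hB.r1, zpow_natCast, ← pow_mul, ← pow_mul, mul_comm]
  obtain ⟨Λ, _, P, hPf, hPa, hPt⟩ := hIPX G t (g ^ 4) a (k : ℤ) hB.r2 haf
  obtain ⟨u1, u2, u3, u4, u5, u6⟩ := hIRU Λ G (k : ℤ) P
  have hZd : P.Z = P.f ^ (1 - (k : ℤ)) := rfl
  have hZ : P.Z = ((g ^ 4) ^ (k - 1))⁻¹ := by
    rw [hZd, hPf, ← zpow_natCast (g ^ 4) (k - 1), ← zpow_neg]
    congr 1
    push_cast [Nat.cast_sub hk1]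
    ring
  have hC := relC g a t P.Z β (1 - 2 ^ n) hB.r2 hB.r3 (by rw [← hPf, ← hPa]; exact u3)
  -- numbers in `Λ`
  have hup : ∀ m : ℕ, P.up (m : ℤ) = (2 : Λ) ^ m := by
    intro m
    unfold PP.up
    rw [zpow_natCast, Units.val_pow_eq_pow_val, P.hu]
  have hpm : ∀ m : ℤ, P.p (m : Λ) = t ^ m := by
    intro m
    have := u6 m 1
    rw [mul_one, hPt] at this
    exact this
  -- the first triangle
  have hS0 : P.Tri (-1) (-(-(P.up (n : ℤ)) + 1)) (P.up ((k : ℤ) - 1) * (-(P.up (n : ℤ)))) 1 := by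
    unfold PP.Tri
    have e1 : P.p (-(-(P.up (n : ℤ)) + 1)) = t ^ (-(1 - 2 ^ n) : ℤ) := by
      rw [← hpm, hup]
      push_cast
      congr 1
      ring
    have e2 : P.p (-(P.up (n : ℤ))) = t ^ ((1 - 2 ^ n) - 1 : ℤ) := by
      rw [← hpm, hup]
      push_cast
      congr 1
      ring
    have e3 : P.p (P.up ((k : ℤ) - 1) * (-(P.up (n : ℤ)))) * P.Z ^ (1 : ℤ) = P.Z * P.p (-(P.up (n : ℤ))) := by
      have := u1 1 (-(P.up (n : ℤ)))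
      rw [mul_one, zpow_one] at this
      rw [zpow_one]
      exact this.symm
    rw [mul_assoc (P.p _ * P.a), e3, e1, e2, P.pneg, hPt, hPa]
    calc a * t⁻¹ * a = a * (t⁻¹ * a * t) * t⁻¹ := by group
      _ = t ^ (-(1 - 2 ^ n) : ℤ) * (a * P.Z) * t ^ (1 - 2 ^ n : ℤ) * t⁻¹ := by rw [hC]
      _ = t ^ (-(1 - 2 ^ n) : ℤ) * a * (P.Z * t ^ ((1 - 2 ^ n) - 1 : ℤ)) := by
        rw [zpow_sub t (1 - 2 ^ n : ℤ) 1, zpow_one]
        group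
  obtain ⟨hY, _⟩ := hIYW hITH hIRU hISC Λ G (k : ℤ) P _ hS0
  have hT3 := hIT3 hIRU hISC hIYW hITH Λ G (k : ℤ) P _ hS0
  have hYn := hISC hIRU Λ G (k : ℤ) P _ _ _ _ hY (n : ℤ)
  have hmid : P.up (n : ℤ) * (-P.N) = -(-(P.N * (-(P.up (n : ℤ))))) := by ring
  rw [hmid] at hYn
  have hco := hICO hIRU Λ G (k : ℤ) P _ _ _ _ _ _ _ hT3 hYn
  obtain ⟨hA, hpx⟩ := hIEN hIRU Λ G k P _ _ _ hk1 hco
  -- `Z^(k+1) = 1`
  have hA1 : ((g ^ 4) ^ (k - 1)) ^ (k + 1) = 1 := by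
    rw [hZ, inv_pow] at hA
    exact inv_eq_one.1 hA
  -- the number
  have hInt : P.p ((((2 ^ (k - 1) - 1) * ((2 ^ k - 1) * (2 ^ (n + k - 1) - 1) *
      (2 ^ (k * (n + k - 1)) + 1)) : ℤ)) : Λ) = 1 := by
    have hs : ∃ s : ℤ, (2 ^ k - 2 : Λ) * (P.N * ((P.up ((k : ℤ) * (n : ℤ)) * -(-(P.up (n : ℤ)) + P.up (1 - (k : ℤ))) -
        P.up ((k : ℤ) * (1 - (k : ℤ))) * (-(P.up (n : ℤ)) + P.up (1 - (k : ℤ)))) *
        P.up (-(((k : ℤ) - 1) * ((k : ℤ) * (2 * (k : ℤ) + 1) - 1))))) =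
        P.up s * ((((2 ^ (k - 1) - 1) * ((2 ^ k - 1) * (2 ^ (n + k - 1) - 1) *
      (2 ^ (k * (n + k - 1)) + 1)) : ℤ)) : Λ) := by
      refine ⟨1 + (1 - (k : ℤ)) + (k : ℤ) * (1 - (k : ℤ)) + (-(((k : ℤ) - 1) * ((k : ℤ) * (2 * (k : ℤ) + 1) - 1))), ?_⟩
      push_cast
      rw [P.up_add, P.up_add, P.up_add]
      generalize P.up (-(((k : ℤ) - 1) * ((k : ℤ) * (2 * (k : ℤ) + 1) - 1))) = w
      have c1 : P.N = 2 ^ k - 1 := by unfold PP.N; rw [hup]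
      have c2 : (2 : Λ) ^ k = 2 * 2 ^ (k - 1) := by
        rw [← pow_succ']; congr 1; omega
      have c3 : P.up (n : ℤ) = P.up (1 - (k : ℤ)) * 2 ^ (n + k - 1) := by
        rw [← hup, ← P.up_add]; congr 1
        push_cast [Nat.cast_sub (show 1 ≤ n + k by omega)]
        ring
      have c4 : P.up ((k : ℤ) * (n : ℤ)) = P.up ((k : ℤ) * (1 - (k : ℤ))) * 2 ^ (k * (n + k - 1)) := by
        rw [← hup, ← P.up_add]; congr 1
        push_cast [Nat.cast_sub (show 1 ≤ n + k by omega)]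
        ring
      rw [P.up_one, c1, c3, c4, c2]
      ring
    obtain ⟨s, hs⟩ := hs
    rw [hs, ← u5] at hpx
    have h1 : P.p ((((2 ^ (k - 1) - 1) * ((2 ^ k - 1) * (2 ^ (n + k - 1) - 1) *
      (2 ^ (k * (n + k - 1)) + 1)) : ℤ)) : Λ) = P.f ^ s * (P.f ^ (-s) * P.p ((((2 ^ (k - 1) - 1) * ((2 ^ k - 1) * (2 ^ (n + k - 1) - 1) *
      (2 ^ (k * (n + k - 1)) + 1)) : ℤ)) : Λ) * P.f ^ s) * P.f ^ (-s) := by group
    rw [h1, hpx]
    group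
  have hI1 : t ^ ((2 ^ (k - 1) - 1) * ((2 ^ k - 1) * (2 ^ (n + k - 1) - 1) * (2 ^ (k * (n + k - 1)) + 1))) = 1 := by
    rw [hpm] at hInt
    rw [← zpow_natCast]
    push_cast [Nat.cast_sub (Nat.one_le_two_pow (n := k - 1)), Nat.cast_sub (Nat.one_le_two_pow (n := k)),
      Nat.cast_sub (Nat.one_le_two_pow (n := n + k - 1))]
    exact hInt
  -- `t^(2^(k²-1) - 1) = 1`
  have hkk : 1 ≤ k * k := Nat.one_le_iff_ne_zero.2 (by positivity)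
  have hf1 : P.f ^ ((k * k - 1 : ℕ) : ℤ) = 1 := by
    rw [zpow_natCast, hPf]
    have : k * k - 1 = (k - 1) * (k + 1) := by
      obtain ⟨j, rfl⟩ : ∃ j, k = j + 1 := ⟨k - 1, by omega⟩
      simp only [Nat.add_sub_cancel]
      ring_nf
      omega
    rw [this, pow_mul]
    exact hA1
  have hI2 : t ^ (2 ^ (k * k - 1) - 1) = 1 := by
    have h1 := u5 ((k * k - 1 : ℕ) : ℤ) 1
    rw [mul_one, zpow_neg, hf1, hPt, hup] at h1
    have h2 : P.p ((2 : Λ) ^ (k * k - 1)) = t ^ (2 ^ (k * k - 1)) := by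
      have := hpm (2 ^ (k * k - 1))
      push_cast at this
      rw [this, ← zpow_natCast]
      push_cast
      rfl
    rw [h2] at h1
    have h3 : t ^ (2 ^ (k * k - 1)) = t := by rw [← h1]; group
    have h4 : t ^ (2 ^ (k * k - 1)) = t ^ (2 ^ (k * k - 1) - 1) * t := by
      rw [← pow_succ, Nat.sub_add_cancel Nat.one_le_two_pow]
    rw [h4] at h3
    exact mul_eq_right.1 h3
  refine ⟨hA1, hINU G t n k e hPar.nodd he3 hke hI1 hI2, ?_⟩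
  rw [← hZ]
  exact hC

end Pool.Agent.Helper10.RK
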