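import Pool.Agent.Helper43.RK.St

/-! Project RK (MP_b3ce06_al), module RZ (helper10): the element `z`. -/

set_option autoImplicit false

namespace Pool.Agent.Helper10.RK

open Pool.Agent.Helper43.RK

theorem p3 {G : Type} [Group G] (x : G) : x ^ 3 = x * x * x := by rw [pow_succ, pow_two]

theorem cj3 {G : Type} [Group G] (g x v : G) :
    g⁻¹ * (x * v) ^ 3 * g = ((g⁻¹ * x * g) * (g⁻¹ * v * g)) ^ 3 := by
  simp only [p3]; group

theorem cyc {G : Type} [Group G] (a c p b : G) (ha : a * a = 1) (hc : c * c = 1) (hb : b * b = 1)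
    (hp : p * p = 1) (hac : c * a = a * c) (hpa : a * p = p * a) (hbab : b * a * b = a * c)
    (hcb : c * b = b * c) (hpcp : p * c * p = a * c) :
    (p * b) ^ 3 * a = a * (p * b) ^ 3 ∧ (p * b) ^ 3 * c = c * (p * b) ^ 3 := by
  have hab : a * b = b * (a * c) := by
    rw [← hbab]
    calc a * b = 1 * a * b := by group
      _ = (b * b) * a * b := by rw [hb]
      _ = b * (b * a * b) := by group
  have hcp : c * p = p * (a * c) := by
    rw [← hpcp]
    calc c * p = 1 * c * p := by group
      _ = (p * p) * c * p := by rw [hp]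
      _ = p * (p * c * p) := by group
  have u1 : (p * b) * (a * c) = a * (p * b) := by
    calc (p * b) * (a * c) = p * (b * (a * c)) := by group
      _ = p * (a * b) := by rw [hab]
      _ = (p * a) * b := by group
      _ = (a * p) * b := by rw [hpa]
      _ = a * (p * b) := by group
  have u2 : (p * b) * a = c * (p * b) := by
    calc (p * b) * a = (p * b) * a * 1 := by group
      _ = (p * b) * a * (c * c) := by rw [hc]
      _ = ((p * b) * (a * c)) * c := by group
      _ = (a * (p * b)) * c := by rw [u1]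
      _ = a * p * (b * c) := by group
      _ = a * p * (c * b) := by rw [hcb]
      _ = (a * p) * c * b := by group
      _ = (p * a) * c * b := by rw [hpa]
      _ = (p * (a * c)) * b := by group
      _ = (c * p) * b := by rw [hcp]
      _ = c * (p * b) := by group
  have u3 : (p * b) * c = (a * c) * (p * b) := by
    calc (p * b) * c = (p * b) * 1 * c := by group
      _ = (p * b) * (a * a) * c := by rw [ha]
      _ = ((p * b) * a) * (a * c) := by group
      _ = (c * (p * b)) * (a * c) := by rw [u2]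
      _ = c * ((p * b) * (a * c)) := by group
      _ = c * (a * (p * b)) := by rw [u1]
      _ = (c * a) * (p * b) := by group
      _ = (a * c) * (p * b) := by rw [hac]
  generalize p * b = u at u1 u2 u3
  constructor
  · calc u ^ 3 * a = u * u * (u * a) := by simp only [p3]; group
      _ = u * u * (c * u) := by rw [u2]
      _ = u * (u * c) * u := by group
      _ = u * ((a * c) * u) * u := by rw [u3]
      _ = (u * (a * c)) * u * u := by group
      _ = (a * u) * u * u := by rw [u1]
      _ = a * u ^ 3 := by simp only [p3]; group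
  · calc u ^ 3 * c = u * u * (u * c) := by simp only [p3]; group
      _ = u * u * ((a * c) * u) := by rw [u3]
      _ = u * (u * (a * c)) * u := by group
      _ = u * (a * u) * u := by rw [u1]
      _ = (u * a) * u * u := by group
      _ = (c * u) * u * u := by rw [u2]
      _ = c * u ^ 3 := by simp only [p3]; group

theorem hRZ : StRZ := by
  intro hS R _ _ G _ D
  obtain ⟨hT, _⟩ := hS R G D
  have hzd : D.z = (D.a (D.y : R) * D.b 1) ^ 3 := rfl
  -- basic facts
  have hac : D.c * D.a 1 = D.a 1 * D.c := by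
    have h := D.hac 1
    rw [map_one] at h
    calc D.c * D.a 1 = D.c * D.a 1 * 1 := by group
      _ = D.c * D.a 1 * (D.c * D.c) := by rw [D.c2]
      _ = (D.c * D.a 1 * D.c) * D.c := by group
      _ = D.a 1 * D.c := by rw [h]
  have hcb : D.c * D.b 1 = D.b 1 * D.c := by
    have h := D.hbc 1
    rw [map_one] at h
    calc D.c * D.b 1 = D.c * D.b 1 * 1 := by group
      _ = D.c * D.b 1 * (D.c * D.c) := by rw [D.c2]
      _ = (D.c * D.b 1 * D.c) * D.c := by group
      _ = D.b 1 * D.c := by rw [h]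
  have hbab : D.b 1 * D.a 1 * D.b 1 = D.a 1 * D.c := by
    rw [D.cdef]
    calc D.b 1 * D.a 1 * D.b 1 = 1 * (D.b 1 * D.a 1 * D.b 1) := by group
      _ = (D.a 1 * D.a 1) * (D.b 1 * D.a 1 * D.b 1) := by rw [D.aa]
      _ = D.a 1 * (D.a 1 * D.b 1 * D.a 1 * D.b 1) := by group
  have hcpc : D.c * D.a (D.y : R) * D.c = D.a 1 * D.a (D.y : R) := by
    rw [D.hac, D.bary, D.yb_eq, D.a_add]
  have hpcp : D.a (D.y : R) * D.c * D.a (D.y : R) = D.a 1 * D.c := by
    calc D.a (D.y : R) * D.c * D.a (D.y : R) = D.a (D.y : R) * D.c * D.a (D.y : R) * 1 := by group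
      _ = D.a (D.y : R) * D.c * D.a (D.y : R) * (D.c * D.c) := by rw [D.c2]
      _ = D.a (D.y : R) * (D.c * D.a (D.y : R) * D.c) * D.c := by group
      _ = D.a (D.y : R) * (D.a 1 * D.a (D.y : R)) * D.c := by rw [hcpc]
      _ = D.a (D.y : R) * (D.a (D.y : R) * D.a 1) * D.c := by rw [D.acomm 1]
      _ = (D.a (D.y : R) * D.a (D.y : R)) * D.a 1 * D.c := by group
      _ = D.a 1 * D.c := by rw [D.aa]; group
  obtain ⟨za, zc⟩ := cyc (D.a 1) D.c (D.a (D.y : R)) (D.b 1) (D.aa 1) D.c2 (D.bb 1) (D.aa _) hac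
    (D.acomm 1 _) hbab hcb hpcp
  rw [← hzd] at za zc
  have hzi : D.z⁻¹ = (D.b 1 * D.a (D.y : R)) ^ 3 := by
    rw [hzd, ← inv_pow, mul_inv_rev, D.ainv, D.binv]
  have zp : D.a (D.y : R) * D.z * D.a (D.y : R) = D.z⁻¹ := by
    rw [hzi, hzd]
    calc D.a (D.y : R) * (D.a (D.y : R) * D.b 1) ^ 3 * D.a (D.y : R)
        = (D.a (D.y : R) * D.a (D.y : R)) * (D.b 1 * D.a (D.y : R)) ^ 3 := by simp only [p3]; group
      _ = (D.b 1 * D.a (D.y : R)) ^ 3 := by rw [D.aa, one_mul]
  have zb : D.b 1 * D.z * D.b 1 = D.z⁻¹ := by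
    rw [hzi, hzd]
    calc D.b 1 * (D.a (D.y : R) * D.b 1) ^ 3 * D.b 1
        = (D.b 1 * D.a (D.y : R)) ^ 3 * (D.b 1 * D.b 1) := by simp only [p3]; group
      _ = (D.b 1 * D.a (D.y : R)) ^ 3 := by rw [D.bb, mul_one]
  -- (A)
  have hA : (D.a (D.y : R) * D.b 1) ^ 3 = (D.a (D.yb : R) * D.b 1) ^ 3 := by
    have h1 : D.c⁻¹ * D.z * D.c = D.z := by
      rw [mul_assoc, zc]; group
    have h2 := cj3 D.c (D.a (D.y : R)) (D.b 1)
    rw [← hzd, h1, D.cinv, D.hac, D.bary, D.hbc, map_one] at h2
    rw [← hzd]; exact h2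
  -- exchange by `w`
  have hW : ∀ x v : R, D.w * (D.a x * D.b v) ^ 3 * D.w = ((D.a v * D.b x) ^ 3)⁻¹ := by
    intro x v
    have h2 := cj3 D.w (D.a x) (D.b v)
    rw [D.winv, D.aw, D.bw] at h2
    rw [h2, ← inv_pow, mul_inv_rev, D.ainv, D.binv]
  have hA' : (D.a 1 * D.b (D.y : R)) ^ 3 = (D.a 1 * D.b (D.yb : R)) ^ 3 := by
    have h1 := hW (D.y : R) 1
    rw [hA, hW] at h1
    exact (inv_injective h1).symm
  -- (B)
  have hB : (D.a (D.y : R) * D.b 1) ^ 3 =
      (D.a (D.y : R) * D.b (((D.y⁻¹ : Rˣ) : R) * (D.yb : R))) ^ 3 := by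
    have h1 := cj3 D.Y (D.a 1) (D.b (D.y : R))
    have h2 := cj3 D.Y (D.a 1) (D.b (D.yb : R))
    rw [D.aY, D.bY, mul_one] at h1 h2
    rw [Units.inv_mul] at h1
    rw [← h1, hA', h2]
  have hSz : D.S⁻¹ * D.z * D.S = D.z := by
    have h1 := cj3 D.S (D.a (D.yb : R)) (D.b 1)
    rw [← hA, ← hzd, D.aS, D.bS, mul_one] at h1
    have e1 : (D.s : R) * (D.yb : R) = (D.y : R) := by
      simp only [Dt.s, Units.val_mul]
      rw [mul_assoc, Units.inv_mul, mul_one]
    have e2 : ((D.s⁻¹ : Rˣ) : R) = ((D.y⁻¹ : Rˣ) : R) * (D.yb : R) := by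
      simp only [Dt.s, mul_inv_rev, inv_inv, Units.val_mul]
      ring
    rw [e1, e2, ← hB, ← hzd] at h1
    exact h1
  have hSz' : D.z * D.S = D.S * D.z := by
    calc D.z * D.S = D.S * (D.S⁻¹ * D.z * D.S) := by group
      _ = D.S * D.z := by rw [hSz]
  have hSz2 : D.z * D.S⁻¹ = D.S⁻¹ * D.z := by
    calc D.z * D.S⁻¹ = D.S⁻¹ * (D.S * D.z) * D.S⁻¹ := by group
      _ = D.S⁻¹ * (D.z * D.S) * D.S⁻¹ := by rw [hSz']
      _ = D.S⁻¹ * D.z := by group
  -- `z` commutes with all `a r`
  have hall : ∀ r, D.z * D.a r = D.a r * D.z := by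
    let T : AddSubgroup R :=
      { carrier := {r | D.z * D.a r = D.a r * D.z}
        zero_mem' := by
          change D.z * D.a 0 = D.a 0 * D.z
          rw [D.a0]; group
        add_mem' := by
          intro x y hx hy
          change D.z * D.a (x + y) = D.a (x + y) * D.z
          have hx' : D.z * D.a x = D.a x * D.z := hx
          have hy' : D.z * D.a y = D.a y * D.z := hy
          rw [D.a_add, ← mul_assoc, hx', mul_assoc, hy', mul_assoc]
        neg_mem' := by
          intro x hx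
          change D.z * D.a (-x) = D.a (-x) * D.z
          have : -x = x := neg_eq_of_add_eq_zero_left (D.two x)
          rw [this]; exact hx }
    have hTt := hT T (by
      intro i
      change D.z * D.a ((D.s : R) ^ i) = D.a ((D.s : R) ^ i) * D.z
      induction i with
      | zero => rw [pow_zero]; exact za
      | succ i ih =>
        rw [pow_succ', ← D.aS]
        calc D.z * (D.S⁻¹ * D.a ((D.s : R) ^ i) * D.S)
            = (D.z * D.S⁻¹) * D.a ((D.s : R) ^ i) * D.S := by group
          _ = (D.S⁻¹ * D.z) * D.a ((D.s : R) ^ i) * D.S := by rw [hSz2]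
          _ = D.S⁻¹ * (D.z * D.a ((D.s : R) ^ i)) * D.S := by group
          _ = D.S⁻¹ * (D.a ((D.s : R) ^ i) * D.z) * D.S := by rw [ih]
          _ = D.S⁻¹ * D.a ((D.s : R) ^ i) * (D.z * D.S) := by group
          _ = D.S⁻¹ * D.a ((D.s : R) ^ i) * (D.S * D.z) := by rw [hSz']
          _ = D.S⁻¹ * D.a ((D.s : R) ^ i) * D.S * D.z := by group)
    intro r
    have hr : r ∈ T := by rw [hTt]; exact AddSubgroup.mem_top r
    exact hr
  have hzz : D.z⁻¹ = D.z := by
    rw [← zp]
    calc D.a (D.y : R) * D.z * D.a (D.y : R) = D.a (D.y : R) * (D.z * D.a (D.y : R)) := by group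
      _ = D.a (D.y : R) * (D.a (D.y : R) * D.z) := by rw [hall]
      _ = (D.a (D.y : R) * D.a (D.y : R)) * D.z := by group
      _ = D.z := by rw [D.aa, one_mul]
  have hb1 : D.z * D.b 1 = D.b 1 * D.z := by
    rw [hzz] at zb
    calc D.z * D.b 1 = 1 * (D.z * D.b 1) := by group
      _ = (D.b 1 * D.b 1) * (D.z * D.b 1) := by rw [D.bb]
      _ = D.b 1 * (D.b 1 * D.z * D.b 1) := by group
      _ = D.b 1 * D.z := by rw [zb]
  have bS' : ∀ r, D.S * D.b r * D.S⁻¹ = D.b ((D.s : R) * r) := by
    intro r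
    have h := D.bS ((D.s : R) * r)
    rw [← mul_assoc, Units.inv_mul, one_mul] at h
    rw [← h]; group
  have hallb : ∀ r, D.z * D.b r = D.b r * D.z := by
    let T : AddSubgroup R :=
      { carrier := {r | D.z * D.b r = D.b r * D.z}
        zero_mem' := by
          change D.z * D.b 0 = D.b 0 * D.z
          rw [D.b0]; group
        add_mem' := by
          intro x y hx hy
          change D.z * D.b (x + y) = D.b (x + y) * D.z
          have hx' : D.z * D.b x = D.b x * D.z := hx
          have hy' : D.z * D.b y = D.b y * D.z := hy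
          rw [D.b_add, ← mul_assoc, hx', mul_assoc, hy', mul_assoc]
        neg_mem' := by
          intro x hx
          change D.z * D.b (-x) = D.b (-x) * D.z
          have : -x = x := neg_eq_of_add_eq_zero_left (D.two x)
          rw [this]; exact hx }
    have hTt := hT T (by
      intro i
      change D.z * D.b ((D.s : R) ^ i) = D.b ((D.s : R) ^ i) * D.z
      induction i with
      | zero => rw [pow_zero]; exact hb1
      | succ i ih =>
        rw [pow_succ', ← bS']
        calc D.z * (D.S * D.b ((D.s : R) ^ i) * D.S⁻¹)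
            = (D.z * D.S) * D.b ((D.s : R) ^ i) * D.S⁻¹ := by group
          _ = (D.S * D.z) * D.b ((D.s : R) ^ i) * D.S⁻¹ := by rw [hSz']
          _ = D.S * (D.z * D.b ((D.s : R) ^ i)) * D.S⁻¹ := by group
          _ = D.S * (D.b ((D.s : R) ^ i) * D.z) * D.S⁻¹ := by rw [ih]
          _ = D.S * D.b ((D.s : R) ^ i) * (D.z * D.S⁻¹) := by group
          _ = D.S * D.b ((D.s : R) ^ i) * (D.S⁻¹ * D.z) := by rw [hSz2]
          _ = D.S * D.b ((D.s : R) ^ i) * D.S⁻¹ * D.z := by group)
    intro r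
    have hr : r ∈ T := by rw [hTt]; exact AddSubgroup.mem_top r
    exact hr
  refine ⟨?_, fun r => ⟨hall r, hallb r⟩⟩
  calc D.z * D.z = D.z⁻¹ * D.z := by rw [hzz]
    _ = 1 := by group

end Pool.Agent.Helper10.RK
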